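import Pool.Agent.Y513.SG.LimH

/-!
# A finite and robust obstruction for all combinations of intrinsic volumes

Let `n ≥ 3` and let `F = c₀ V₀ + c₁ V₁ + … + cₙ Vₙ` with `cᵢ ≥ 0` be any nonnegative combination of
the intrinsic volumes that is not of the form `c₀ V₀ + c₁ V₁` and not of the form `c₀ V₀ + cₙ Vₙ`.
There are finitely many convex bodies and a number `ε > 0` such that for every hyperplane `H`
through the origin, every monotonic symmetrization with respect to `H` which is invariant on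
`H`-symmetric spherical cylinders or projection invariant changes the value of `F` by at least `ε`
on one of these finitely many bodies.

In particular no such symmetrization preserves `F`; for `F = V_j` with `2 ≤ j ≤ n - 1` this is the
theorem `NoSymmetrization.result` (see `no_symmetrization` below). For `F = V₁` and `F = Vₙ` such
symmetrizations exist (Minkowski and Steiner symmetrization).
-/

namespace Pool.Agent.Results.MP_36ea0a_gt.NoNearlyPreservedCombination

open MeasureTheory Module Set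
open scoped ENNReal NNReal
open Pool.Agent.Results.MP_b62b68_gt.NoSymmetrization (E O haarO plane proj volIn HSymm
  nonemptyCompactConvex convexBodies V V_eq V_lt_top A hsymm_iff)
open Pool.Agent.Results.MP_36ea0a_gt.NoSymmetrization (ballVolume ballVolume_pos
  ballVolume_lt_top intrinsicVolume cylinder InvariantOnCylinders ProjectionInvariant
  IsSymmetrization)

/-- The functional `c₀ V₀ + c₁ V₁ + … + cₙ Vₙ` on the compact convex subsets of `ℝⁿ`. -/
noncomputable def combination (n : ℕ) (c : ℕ → ℝ≥0) (K : Set (E n)) : ℝ :=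
  ∑ i ∈ Finset.range (n + 1), (c i : ℝ) * (intrinsicVolume n i K).toReal

/-- The quotient of the two normalisations of the intrinsic volumes. -/
noncomputable def γ (n i : ℕ) : ℝ≥0∞ :=
  (n.choose i : ℝ≥0∞) * (ballVolume n / (ballVolume i * ballVolume (n - i))) *
    (n.choose i : ℝ≥0∞)

theorem intrinsic_eq {n i : ℕ} (hi : i ≤ n) (K : Set (E n)) :
    intrinsicVolume n i K = γ n i * V n i K := by
  have h0 : (n.choose i : ℝ≥0∞) ≠ 0 := by exact_mod_cast (Nat.choose_pos hi).ne'
  unfold intrinsicVolume γ V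
  rw [mul_assoc ((n.choose i : ℝ≥0∞) * (ballVolume n / (ballVolume i * ballVolume (n - i)))),
    ← mul_assoc (n.choose i : ℝ≥0∞) (n.choose i : ℝ≥0∞)⁻¹,
    ENNReal.mul_inv_cancel h0 (ENNReal.natCast_ne_top _), one_mul]

theorem γ_ne_zero {n i : ℕ} (hi : i ≤ n) : γ n i ≠ 0 := by
  have h0 : (n.choose i : ℝ≥0∞) ≠ 0 := by exact_mod_cast (Nat.choose_pos hi).ne'
  unfold γ
  refine mul_ne_zero (mul_ne_zero h0 ?_) h0
  rw [Ne, ENNReal.div_eq_zero_iff]
  push Not
  exact ⟨ballVolume_pos n, ENNReal.mul_ne_top (ballVolume_lt_top _) (ballVolume_lt_top _)⟩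

theorem γ_ne_top (n i : ℕ) : γ n i ≠ ∞ := by
  unfold γ
  refine ENNReal.mul_ne_top (ENNReal.mul_ne_top (ENNReal.natCast_ne_top _) ?_)
    (ENNReal.natCast_ne_top _)
  exact ENNReal.div_ne_top (ballVolume_lt_top n) (mul_ne_zero (ballVolume_pos _)
    (ballVolume_pos _))

/-- The intrinsic volume of order zero is the same for all nonempty sets. -/
theorem V_zero {n : ℕ} {K L : Set (E n)} (hK : K.Nonempty) (hL : L.Nonempty) :
    V n 0 K = V n 0 L := by
  rw [V_eq (Nat.zero_le n), V_eq (Nat.zero_le n)]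
  congr 1
  refine lintegral_congr fun g => ?_
  congr 1
  have h1 : ∀ M : Set (E n), M.Nonempty → A n 0 (Nat.zero_le n) g '' M = Set.univ := by
    intro M hM
    refine Set.eq_univ_of_forall fun y => ?_
    obtain ⟨x, hx⟩ := hM
    exact ⟨x, hx, Subsingleton.elim _ _⟩
  rw [h1 K hK, h1 L hL]

theorem combination_eq {n : ℕ} (c : ℕ → ℝ≥0) {K : Set (E n)} (hK : Bornology.IsBounded K) :
    combination n c K = (c 0 : ℝ) * (intrinsicVolume n 0 K).toReal +
      (Pool.Agent.Y513.SG.F n (fun i => (c (i + 1) : ℝ≥0∞) * γ n (i + 1)) K).toReal := by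
  unfold combination Pool.Agent.Y513.SG.F
  rw [Finset.sum_range_succ', add_comm, ENNReal.toReal_sum]
  · congr 1
    refine Finset.sum_congr rfl fun i hi => ?_
    rw [intrinsic_eq (show i + 1 ≤ n from Finset.mem_range.1 hi)]
    simp only [ENNReal.toReal_mul, ENNReal.coe_toReal, mul_assoc]
  · intro i hi
    exact ENNReal.mul_ne_top (ENNReal.mul_ne_top ENNReal.coe_ne_top (γ_ne_top _ _))
      (V_lt_top (Finset.mem_range.1 hi) hK).ne

/-- **The finite robust obstruction.** Let `n ≥ 3` and let `c₀, …, cₙ ≥ 0` be such that some `cᵢ`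
with `2 ≤ i ≤ n` and some `cᵢ` with `1 ≤ i ≤ n - 1` do not vanish. There are a finite family `𝓕` of
convex bodies and `ε > 0` such that, for every hyperplane `H` through the origin, every class `𝓑`
that contains the convex bodies and consists of nonempty compact convex sets (in particular both
classes of the problem), and every monotonic map `D` from `𝓑` to the nonempty compact convex
`H`-symmetric sets which is invariant on the `H`-symmetric spherical cylinders in `𝓑` or projection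
invariant, there is a body `K ∈ 𝓕` such that the values of `c₀ V₀ + … + cₙ Vₙ` at `D K` and at `K`
differ by at least `ε`. -/
theorem result (n : ℕ) (hn : 3 ≤ n) (c : ℕ → ℝ≥0)
    (h1 : ∃ i, 2 ≤ i ∧ i ≤ n ∧ c i ≠ 0)
    (h2 : ∃ i, 1 ≤ i ∧ i ≤ n - 1 ∧ c i ≠ 0) :
    ∃ (𝓕 : Set (Set (E n))) (ε : ℝ), 𝓕.Finite ∧ 𝓕 ⊆ convexBodies n ∧ 0 < ε ∧
      ∀ H : Submodule ℝ (E n), finrank ℝ H + 1 = n →
      ∀ 𝓑 : Set (Set (E n)), convexBodies n ⊆ 𝓑 → 𝓑 ⊆ nonemptyCompactConvex n →
      ∀ D : Set (E n) → Set (E n),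
        (∀ K ∈ 𝓑, D K ∈ nonemptyCompactConvex n ∧ HSymm H (D K)) →
        (∀ K ∈ 𝓑, ∀ L ∈ 𝓑, K ⊆ L → D K ⊆ D L) →
        (InvariantOnCylinders 𝓑 H D ∨ ProjectionInvariant 𝓑 H D) →
        ∃ K ∈ 𝓕, ε ≤ |combination n c (D K) - combination n c K| := by
  obtain ⟨𝓕, ε, hfin, hsub, hε, hobs⟩ := Pool.Agent.Y513.SG.finite_obstruction (n := n)
    (c := fun i => (c (i + 1) : ℝ≥0∞) * γ n (i + 1)) hn
    (fun i => ENNReal.mul_ne_top ENNReal.coe_ne_top (γ_ne_top _ _))
    (by
      obtain ⟨i, hi1, hi2, hi⟩ := h1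
      obtain ⟨k, rfl⟩ : ∃ k, i = k + 1 := ⟨i - 1, by omega⟩
      exact ⟨k, by omega, by omega, mul_ne_zero (ENNReal.coe_ne_zero.2 hi) (γ_ne_zero hi2)⟩)
    (by
      obtain ⟨i, hi1, hi2, hi⟩ := h2
      obtain ⟨k, rfl⟩ : ∃ k, i = k + 1 := ⟨i - 1, by omega⟩
      exact ⟨k, by omega, mul_ne_zero (ENNReal.coe_ne_zero.2 hi) (γ_ne_zero (by omega))⟩)
  refine ⟨𝓕, ε, hfin, hsub, hε, ?_⟩
  intro H hH 𝓑 h𝓑 h𝓑' D hmaps hmono hcp
  have hproj : ∀ K ∈ convexBodies n, ∀ x ∈ D K, ∃ y ∈ K,
      H.starProjection y = H.starProjection x := by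
    rcases hcp with hc | hp
    · intro K hK x hx
      refine Pool.Agent.W570.Sym.proj_of_cyl H D
        (fun K hK L hL => hmono K (h𝓑 hK) L (h𝓑 hL)) ?_ K hK x hx
      intro c hcH r t hr ht
      exact hc c hcH r t hr ht.le (h𝓑 (Pool.Agent.W570.Sym.cyl_body H hcH hr ht))
    · intro K hK x hx
      have h3 : H.starProjection x ∈ proj K H := by
        rw [← hp K (h𝓑 hK)]
        exact ⟨x, hx, rfl⟩
      obtain ⟨y, hy, hyx⟩ := h3
      exact ⟨y, hy, hyx⟩
  have hB : Pool.Agent.Y513.SG.Bod H D :=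
    { compact := fun K hK => (hmaps K (h𝓑 hK)).1.1
      convex := fun K hK => (hmaps K (h𝓑 hK)).1.2.1
      nonempty := fun K hK => (hmaps K (h𝓑 hK)).1.2.2
      symm := fun K hK => (hsymm_iff H _).1 (hmaps K (h𝓑 hK)).2
      mono := fun K hK L hL => hmono K (h𝓑 hK) L (h𝓑 hL)
      proj := hproj }
  obtain ⟨K, hK, hKε⟩ := hobs H hH D hB
  refine ⟨K, hK, ?_⟩
  have hKb := hsub hK
  have hne : K.Nonempty := hKb.2.2.mono interior_subset
  have hD := (hmaps K (h𝓑 hKb)).1
  rw [combination_eq c hKb.1.isBounded, combination_eq c hD.1.isBounded,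
    intrinsic_eq (Nat.zero_le n), intrinsic_eq (Nat.zero_le n), V_zero hD.2.2 hne,
    add_sub_add_left_eq_sub]
  exact hKε

/-- The theorem `NoSymmetrization.result` is the special case of a single intrinsic volume `V_j`
that is preserved exactly. -/
theorem no_symmetrization (n j : ℕ) (hj : 2 ≤ j) (hjn : j + 1 ≤ n) (H : Submodule ℝ (E n))
    (hH : finrank ℝ H + 1 = n) (𝓑 : Set (Set (E n)))
    (h𝓑 : 𝓑 = nonemptyCompactConvex n ∨ 𝓑 = convexBodies n) :
    ¬ ∃ D : Set (E n) → Set (E n), IsSymmetrization 𝓑 H j D ∧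
      (InvariantOnCylinders 𝓑 H D ∨ ProjectionInvariant 𝓑 H D) := by
  rintro ⟨D, hD, hcp⟩
  obtain ⟨𝓕, ε, -, hsub, hε, h⟩ := result n (by omega) (Pi.single j 1)
    ⟨j, hj, by omega, by simp⟩ ⟨j, by omega, by omega, by simp⟩
  have hbody : convexBodies n ⊆ nonemptyCompactConvex n :=
    fun K hK => ⟨hK.1, hK.2.1, hK.2.2.mono interior_subset⟩
  have h𝓑1 : convexBodies n ⊆ 𝓑 := by
    rcases h𝓑 with rfl | rfl
    · exact hbody
    · exact subset_rfl
  have h𝓑2 : 𝓑 ⊆ nonemptyCompactConvex n := by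
    rcases h𝓑 with rfl | rfl
    · exact subset_rfl
    · exact hbody
  obtain ⟨K, hK, hKε⟩ := h H hH 𝓑 h𝓑1 h𝓑2 D
    (fun K hK => ⟨h𝓑2 (hD.maps K hK).1, (hD.maps K hK).2⟩) hD.monotonic hcp
  have h3 : combination n (Pi.single j 1) (D K) = combination n (Pi.single j 1) K := by
    unfold combination
    refine Finset.sum_congr rfl fun i _ => ?_
    by_cases hij : i = j
    · rw [hij, hD.preserves K (h𝓑1 (hsub hK))]
    · simp [hij]
  rw [h3, sub_self, abs_zero] at hKε
  exact absurd hε (not_lt.2 hKε)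

end Pool.Agent.Results.MP_36ea0a_gt.NoNearlyPreservedCombination
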